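import Pool.Agent.Lib.MP_adc574_ag_TR.M

set_option autoImplicit false

namespace Pool.Agent.Results.MP_adc574_ag.GeneralEnd

open OrdRed OrdRel Polynomial

universe u

/-- Let `A` be a finitely generated subring of the algebraically closed field `k` of characteristic `0`, `I` and `J l` (`l < s`)
homogeneous ideals over `A`, `J l ≤ I`, `X ⊆ Y_l` the projective schemes over `k` with the ideals `I` and `J l`, `w j` weights
of the coordinates in a finite abelian group `M` (no condition for `M = 0`), `α l` finitely many geometric endomorphisms of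
`H^1_dR(X)`, with coefficients which are roots of `F ≠ 0` in `ℤ[X]`. Assume that `X` and the `Y_l` are smooth, and that all the
`H^m_dR(X)_μ` are built from large parts, from the parts of the images of the `H^m_dR(Y_l)` and from horizontal logarithmic
classes (`HasLargeParts`).

Then there is `a ≠ 0` in `A` such that for every `b ≠ 0` in `A` and every large prime `p` such that `F` modulo `p` is a product
of linear factors and `dim F^i H^m_dR(X)_(p μ) = dim F^i H^m_dR(X)_μ` for all `m`, `i`, `μ` (`GoodPrime`) the following holds.
`Spec A/p` is not empty. Let `V(𝔓)` be an irreducible component of `Spec A/p` such that every `Y_l` has a smooth and ordinary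
fibre over some closed point of `V(𝔓)` outside of `a = 0` (no condition for `s = 0`). Then the fibres of `X` over all the closed
points of a nonempty open subset of `V(𝔓)`, and over a closed point of `V(𝔓)` outside of `b = 0`, are smooth and ordinary.

There are infinitely many such primes (for `M = 0` and `F = X - 1` these are all the primes). If `s = 0`, or if the closed
points over which all the `Y_l` have smooth and ordinary fibres are dense in `Spec A`, then the closed points over which `X` has
a smooth and ordinary fibre are dense in `Spec A` (in both cases the closed points of the characteristics `p` as above).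

`HasLargeParts` for `M = 0`, `r = 0`: all the `H^m_dR(X)` are built from the images of the `H^m_dR(Y_l)`, from horizontal
logarithmic classes (for example the powers of the class of a hyperplane section), from those `H^m_dR(X)` which are large and
from the large orthogonal complements of what is built before, by sums, products and orthogonal complements. A subspace `V` of
`H^m_dR(X)` is large if it is stable and if, for every `i`, `F^i ∩ V` is `0` or `V`, or a line which generates `V`, or a
hyperplane without stable subspaces, or the monodromy of `V` contains `SL`, `Sp` or `SO` (in the last case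
`dim V ≠ 2 dim F^i ∩ V`). -/
theorem result {k : Type u} [Field k] [IsAlgClosed k] [CharZero k] (A : Subalgebra ℤ k) (hA : A.FG) {n : ℕ}
    (I : Ideal (MvPolynomial (Fin n) A)) (hI : Homogeneous I) (hs : SmoothProj (change I (algebraMap A k)))
    {M : Type} [AddCommGroup M] [Finite M] (w : Fin n → M) (hw : WeightHomogeneous (change I (algebraMap A k)) w)
    {s : ℕ} (J : Fin s → Ideal (MvPolynomial (Fin n) A)) (hle : ∀ l, J l ≤ I) (hJ : ∀ l, Homogeneous (J l))
    (hsJ : ∀ l, SmoothProj (change (J l) (algebraMap A k)))
    (hwJ : ∀ l, WeightHomogeneous (change (J l) (algebraMap A k)) w)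
    {F : ℤ[X]} (hF : F ≠ 0) {r : ℕ} (α : Fin r → Module.End k ((proj (change I (algebraMap A k))).DR 1))
    (hα : ∀ l, Geometric (proj (change I (algebraMap A k))) {x | aeval x F = 0} (α l))
    (hg : HasLargeParts (proj (change I (algebraMap A k))) (part (change I (algebraMap A k)) w)
      (fun l m μ => image (change (J l) (algebraMap A k)) (change I (algebraMap A k)) m ⊓
        part (change I (algebraMap A k)) w m μ) α) :
    (∃ a : A, a ≠ 0 ∧ ∀ b : A, b ≠ 0 → ∃ p₀ : ℕ, ∀ p : ℕ, p₀ ≤ p → GoodPrime (change I (algebraMap A k)) w F p →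
      (∃ 𝔓, 𝔓 ∈ (Ideal.span {(p : A)}).minimalPrimes) ∧ ∀ 𝔓 ∈ (Ideal.span {(p : A)}).minimalPrimes,
        (∀ l, ∃ 𝔪 : Ideal A, 𝔪.IsMaximal ∧ 𝔓 ≤ 𝔪 ∧ a ∉ 𝔪 ∧ OrdinaryAt (J l) 𝔪) →
        (∃ 𝔫 : Ideal A, 𝔫.IsMaximal ∧ 𝔓 ≤ 𝔫 ∧ b ∉ 𝔫 ∧ OrdinaryAt I 𝔫) ∧
          ∃ f ∉ 𝔓, ∀ 𝔫 : Ideal A, 𝔫.IsMaximal → 𝔓 ≤ 𝔫 → f ∉ 𝔫 → OrdinaryAt I 𝔫) ∧
      (∀ p₁ : ℕ, ∃ p : ℕ, p₁ < p ∧ GoodPrime (change I (algebraMap A k)) w F p) ∧
      (s = 0 ∨ DenselyOrdinary (GoodPrime (change I (algebraMap A k)) w F) J →
        DenselyOrdinary (GoodPrime (change I (algebraMap A k)) w F) fun _ : Fin 1 => I) :=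
  have h := main_rel A hA I hI hs w hw J hle hJ hsJ hwJ hF α hα hg
  ⟨h, primes_rel _ w hF, dense_rel A (fun _ hp => hp.1) (primes_rel _ w hF) h⟩

end Pool.Agent.Results.MP_adc574_ag.GeneralEnd
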