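import Pool.Agent.Lib.MP_adc574_ag_GT.MainU

/-!
# Dense ordinary reduction of the general members of Morse systems

Let `k` be an algebraically closed field of characteristic zero, `A` a finitely generated subring of `k` and `X` the
hypersurface of degree `d ≥ 3` in the projective space of dimension `m - 1 ≥ 2` over `k` which is given by the form `F` over
`A` in the variables `X i`, `i : Fin m`. Let `X i₀ = 0` be the hyperplane at infinity. We assume (`MPadcGT.IsGeneralMorse`):

* the coefficients of `F` of the monomials in a finite set `S` which contains `X i₀ ^ d` are algebraically independent over a
  subfield of `k` which contains all other coefficients of `F`;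
* for some change of these coefficients the form is a Morse function (`MPadcPZ.Hyper.IsMorse`): the section at infinity is
  smooth, and the critical points of the affine equation are nondegenerate with different critical values; or, if `S` contains
  also all `X i₀ ^ (d - 1) * X l`, only the section at infinity is smooth (`MPadcPZ.Hyper.IsTransversal`).

Special cases: `S` contains only `X i₀ ^ d`: all hypersurfaces `f = c` with `c` transcendental over the coefficients of the
Morse polynomial `f`, for instance `x ^ 5 + y ^ 5 + z ^ 5 + x + 2 y + 4 z = π`; `S` consists of `X i₀ ^ d` and the
`X i₀ ^ (d - 1) * X l`: the sums of a generic affine linear polynomial and any polynomial `f` whose part of highest degree is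
smooth.

Then question Q1 has a positive answer for `X`, in a strong form. Ordinary means: good reduction (as a hypersurface) which is
ordinary in the sense of Bloch and Kato, `H ^ j (X, B Ω ^ i) = 0` for all `i`, `j` (`MPadcGT.OrdinaryAt`).

* For every large prime `p` the fibre `Spec A/p` is not empty, and each of its irreducible components contains a dense open
  subset such that `X` has ordinary reduction at ALL closed points of this subset (`MPadcGT.OpenOrdinary`).
* The closed points of `Spec A` at which `X` has ordinary reduction are dense in `Spec A`; every nonempty open set `b ≠ 0`
  contains such points of every large characteristic (`MPadcGT.DenseOrdinary`).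
-/

set_option autoImplicit false

namespace Pool.Agent.Results.MP_adc574_ag.MorseFibres

open MvPolynomial MPadcPZ.Hyper MPadcGT

theorem result {m d : ℕ} (hm : 3 ≤ m) (hd : 3 ≤ d) (i₀ : Fin m) (k : Type) [Field k] [CharZero k] [IsAlgClosed k]
    (A : Subalgebra ℤ k) (hA : A.FG) (F : MvPolynomial (Fin m) A) (S : Finset (Fin m →₀ ℕ))
    (hF : IsGeneralMorse i₀ d A F S) : OpenOrdinary F ∧ DenseOrdinary F :=
  final hm hd i₀ k A hA F S hF

end Pool.Agent.Results.MP_adc574_ag.MorseFibres
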