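import Pool.Agent.Lib.MP_adc574_ag_HK.M4

set_option autoImplicit false

namespace Pool.Agent.Results.MP_adc574_ag.Symplectic

open OrdRed

universe u

/-- Let `A` be a finitely generated subring of the field `k` of characteristic `0`, `I` a homogeneous ideal over `A`,
`X` the projective scheme with the ideal `I` over `k`. Assume that `X` is smooth and of symplectic type (for instance a
hyperkähler variety). Then there is `b ≠ 0` in `A` such that at every closed point `s` of `Spec A` with `b(s) ≠ 0` the
fibre `X_s` of the model of `X` is smooth, and `X_s` is ordinary if and only if Frobenius is injective on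
`H^2(X_s, O)`. If moreover `X` is `Moving`, then for every `b ≠ 0` in `A` and every large prime `p` there is a closed
point of `Spec A` of characteristic `p`, outside of `b = 0`, such that the fibre is smooth and ordinary, and every
irreducible component of `Spec A/p` has a nonempty open subset such that this holds at all its closed points. -/
theorem result {k : Type u} [Field k] [CharZero k] (A : Subalgebra ℤ k) (hA : A.FG) {n : ℕ}
    (I : Ideal (MvPolynomial (Fin n) A)) (hI : Homogeneous I) (hs : SmoothProj (change I (algebraMap A k))) {N : ℕ}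
    (hX : Symplectic (proj (change I (algebraMap A k))) N) :
    (∃ b : A, b ≠ 0 ∧ ∀ 𝔪 : Ideal A, 𝔪.IsMaximal → b ∉ 𝔪 → SmoothProj (change I (Ideal.Quotient.mk 𝔪)) ∧
      ∀ p : ℕ, p.Prime → (p : A) ∈ 𝔪 → ((proj (change I (Ideal.Quotient.mk 𝔪))).Ordinary ↔
        (proj (change I (Ideal.Quotient.mk 𝔪))).FrobeniusInjective p 2)) ∧
    (Moving (proj (change I (algebraMap A k))) N → ∀ b : A, b ≠ 0 → ∃ p₀ : ℕ, ∀ p : ℕ, p₀ ≤ p → p.Prime →
      HasOrdinaryFibre I b p ∧ ∀ 𝔓 ∈ (Ideal.span {(p : A)}).minimalPrimes, ∃ f ∉ 𝔓, ∀ 𝔫 : Ideal A, 𝔫.IsMaximal →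
        𝔓 ≤ 𝔫 → f ∉ 𝔫 →
          SmoothProj (change I (Ideal.Quotient.mk 𝔫)) ∧ (proj (change I (Ideal.Quotient.mk 𝔫))).Ordinary) :=
  ⟨MPadcHK.main A hA I hI hs hX, fun hM b hb => MPadcHK.main_mov A hA I hI hs hX hM b hb⟩

end Pool.Agent.Results.MP_adc574_ag.Symplectic
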